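import Pool.Agent.R900.EX.Defs
import Pool.Agent.H916T.Defs

/-!
# Products of Fermat varieties over finite fields: definitions

Let `m` be prime to the prime `p`. The cohomology of a product of Fermat varieties
`x_0 ^ m + ... + x_(n+1) ^ m = 0` (of any dimensions) over an algebraic closure of the field with `p`
elements splits into lines, the eigenlines of the group of the diagonal automorphisms. These are
labelled by the multisets of nonzero residues modulo `m` which are composed of one multiset of `n + 2`
residues with sum zero, or the empty one, for each factor of dimension `n` (Katz, Shioda). The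
Frobenius of a finite field permutes the lines, and it acts by products of Gauss sums.
-/

set_option autoImplicit false

namespace Pool.Agent.R900.EX

open Pool.Agent.W495.FM

variable {Ω V : Type} [Field Ω]

/-- All prime divisors of `m` are `2`, `a` or `b`. -/
def PrimesIn (m a b : ℕ) : Prop := ∀ r : ℕ, r.Prime → r ∣ m → r = 2 ∨ r = a ∨ r = b

/-- The prime divisors of `m` lie in `{2, 3, 5}`, or in `{2, 3, 7}`, or in `{2, q}` for a prime `q`
congruent to `7` modulo `8`, or `4` does not divide `m` and they lie in `{2, 3, 11}` or in
`{2, 3, 13}`. -/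
def FewPrimes (m : ℕ) : Prop :=
  PrimesIn m 3 5 ∨ PrimesIn m 3 7 ∨ (∃ q : ℕ, q.Prime ∧ q % 8 = 7 ∧ PrimesIn m q q) ∨
    (¬ 4 ∣ m ∧ (PrimesIn m 3 11 ∨ PrimesIn m 3 13))

/-- `m = u * v`, or `m = 2 * u * v` with `u * v` odd, where `u`, `v` are powers of two different
primes, and `-1` is a power of `p` modulo `u` and modulo `v`. -/
def TwoPrimes (p m : ℕ) : Prop :=
  ∃ ℓ r a b : ℕ, ℓ.Prime ∧ r.Prime ∧ ℓ ≠ r ∧
    (m = ℓ ^ a * r ^ b ∨ (m = 2 * (ℓ ^ a * r ^ b) ∧ Odd (ℓ ^ a * r ^ b))) ∧
    (∃ i : ℕ, (p : ZMod (ℓ ^ a)) ^ i = -1) ∧ ∃ j : ℕ, (p : ZMod (r ^ b)) ^ j = -1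

/-- The exponent of two in the order of `p` modulo `q`. -/
noncomputable def twoPart (p q : ℕ) : ℕ := padicValNat 2 (orderOf ((p : ℕ) : ZMod q))

/-- `p` and the odd primes dividing `m` are squares modulo the other odd primes dividing `m`, and,
for two such primes `q`, `r`, the order of `r` modulo `q` is odd if the exponent of two in the order
of `p` modulo `q` is smaller than that modulo `r`; if `m` is divisible by four then two has odd order
modulo the odd primes dividing `m`. For instance this holds if `p` has odd order modulo `m`, `m` is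
not divisible by four and the odd primes dividing `m` are squares modulo each other. -/
def Squares (p m : ℕ) : Prop :=
  (∀ q : ℕ, q.Prime → Odd q → q ∣ m → IsSquare ((p : ℕ) : ZMod q)) ∧
    (∀ q r : ℕ, q.Prime → r.Prime → Odd q → Odd r → q ∣ m → r ∣ m → q ≠ r →
      IsSquare ((r : ℕ) : ZMod q)) ∧
    (∀ q r : ℕ, q.Prime → r.Prime → Odd q → Odd r → q ∣ m → r ∣ m → q ≠ r →
      twoPart p q < twoPart p r → Odd (orderOf ((r : ℕ) : ZMod q))) ∧
    (4 ∣ m → ∀ q : ℕ, q.Prime → Odd q → q ∣ m → Odd (orderOf ((2 : ℕ) : ZMod q)))

/-- The pairs of a characteristic `p` and a degree `m`. -/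
def GoodDegree (p m : ℕ) : Prop := FewPrimes m ∨ TwoPrimes p m ∨ Squares p m

/-- After raising the degree to `N * m`, the label `s` is composed of Tate characters of surfaces and of
the standard characters of Aoki. -/
def IsComposed (p m N : ℕ) (s : Multiset (ZMod m)) : Prop :=
  H916T.Generated (N * m)
    (fun t => H916T.SurfaceTate p (N * m) t ∨
      ∃ q : ℕ, q.Prime ∧ q ∣ N * m ∧ H916T.Standard q (N * m) t)
    (s.map fun a => ((N * a.val : ℕ) : ZMod (N * m)))

/-- The cohomology group `E` with the Frobenius `F` and the subspace `A` spanned by the classes of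
algebraic cycles has a basis of eigenvectors `e i`, with eigenvalues `lam i` and labels `s i`, with the
following properties. If the eigenvalue is one, then the label is a Tate character (Stickelberger). The
vectors with the eigenvalue one and the empty label are algebraic (products of powers of the classes of
hyperplane sections), and so are those whose label is composed of characters of surfaces and standard
characters after raising the degree to a multiple prime to `p` (Tate for surfaces, Aoki for standard
characters, Shioda and Katsura for the inductive structure). -/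
def HasEigenbasis {E : Type} [AddCommGroup E] [Module Ω E] (F : E → E) (A : Submodule Ω E)
    (p m : ℕ) : Prop :=
  ∃ (I : Type) (_ : Fintype I) (e : Module.Basis I Ω E) (lam : I → Ω)
    (s : I → Multiset (ZMod m)), (∀ i, F (e i) = lam i • e i) ∧
    ∀ i, lam i = 1 → H916T.IsTate p m (s i) ∧ (s i = 0 → e i ∈ A) ∧
      ∀ N : ℕ, 0 < N → p.Coprime N → IsComposed p m N (s i) → e i ∈ A

/-- The properties of the cohomology of a product `X` of Fermat varieties of degree `m` over a finite
field of characteristic `p`. -/
def HasLines (T : Homology Ω V) (X : V) (p m : ℕ) : Prop :=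
  ∀ b : ℤ, HasEigenbasis (T.frob X (2 * b) b)
    (Submodule.span Ω (Set.range (T.reg X (2 * b) b))) p m

/-- `X` is a product of Fermat varieties of degree `m` over the field with `Q` elements, where `m` is
good for the characteristic `p`. -/
def IsFermat (T : Homology Ω V) (X : V) : Prop :=
  ∃ (p m Q : ℕ) (d : ℤ) (c : Cyc T X), p.Prime ∧ 0 < m ∧ p.Coprime m ∧ GoodDegree p m ∧ 0 < Q ∧
    IsCyc c Q d ∧ HasLines T X p m

end Pool.Agent.R900.EX
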