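import Pool.Agent.R900.EX.TB2
import Pool.Agent.R900.EX.FermatDefs
import Pool.Agent.H916U.Main
import Pool.Agent.H916Y.Fams3
import Pool.Agent.TH540.Main

/-!
# The conjecture of Tate and Beilinson for products of Fermat varieties
-/

set_option autoImplicit false

namespace Pool.Agent.R900.EX

open Pool.Agent.W495.FM Module

/-- The labels obtained by raising the degree are composed of characters of surfaces and standard
characters. -/
def Reached (p m : ℕ) (s : Multiset (ZMod m)) : Prop :=
  ∃ N : ℕ, 0 < N ∧ p.Coprime N ∧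
    H916T.Generated (N * m)
      (fun t => H916T.SurfaceTate p (N * m) t ∨
        ∃ q : ℕ, q.Prime ∧ q ∣ N * m ∧ H916T.Standard q (N * m) t)
      (s.map fun a => ((N * a.val : ℕ) : ZMod (N * m)))

theorem generated_mono {m : ℕ} {b b' : Multiset (ZMod m) → Prop} (h : ∀ s, b s → b' s)
    {s : Multiset (ZMod m)} (hs : H916T.Generated m b s) : H916T.Generated m b' s := by
  induction hs with
  | ofBase s hs => exact .ofBase s (h s hs)
  | pair a ha => exact .pair a ha
  | join s t _ _ h1 h2 => exact .join s t h1 h2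
  | cancel a s _ h1 => exact .cancel a s h1

theorem reached_few {p m : ℕ} (hp : p.Prime) (hm : 0 < m) (hpm : p.Coprime m) (hdeg : FewPrimes m)
    {s : Multiset (ZMod m)} (hs : H916T.IsTate p m s) (hne : s ≠ 0) : Reached p m s := by
  have h : H916Y.Concl p m s := by
    rcases hdeg with h | h | ⟨q, hq, hq7, h⟩ | ⟨h4, h | h⟩
    · exact H916Y.all235 hp hm hpm h hs hne
    · exact H916Y.all237 hp hm hpm h hs hne
    · exact H916Y.allq7 hp hm hpm hq hq7 (fun r hr hrm => (h r hr hrm).imp id (fun h' => h'.elim id id))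
        hs hne
    · exact H916Y.all2311 hp hm h4 hpm h hs hne
    · exact H916Y.all2313 hp hm h4 hpm h hs hne
  obtain ⟨N, hN, hpN, H⟩ := h
  exact ⟨N, hN, hpN, H (N * m) rfl⟩

theorem reached_two {p m : ℕ} (hp : p.Prime) (hpm : p.Coprime m) (hdeg : TwoPrimes p m)
    {s : Multiset (ZMod m)} (hs : H916T.IsTate p m s) (hne : s ≠ 0) : Reached p m s := by
  obtain ⟨ℓ, r, a, b, hℓ, hr, hlr, hm, h1, h2⟩ := hdeg
  have hC := Pool.Agent.H916U.cond_two_primes hℓ hr hlr h1 h2
  have hpos : 0 < ℓ ^ a * r ^ b := Nat.mul_pos (pow_pos hℓ.pos a) (pow_pos hr.pos b)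
  have key : ∃ N : ℕ, 0 < N ∧ p.Coprime N ∧ ∀ s : Multiset (ZMod m), H916T.IsTate p m s → s ≠ 0 →
      H916T.Generated (N * m)
        (fun t => H916T.SurfaceTate p (N * m) t ∨
          ∃ q : ℕ, q.Prime ∧ q ∣ m ∧ H916T.Standard q (N * m) t)
        (s.map fun a => ((N * a.val : ℕ) : ZMod (N * m))) := by
    rcases hm with h | ⟨h, hodd⟩
    · exact Pool.Agent.H916U.main p m (ℓ ^ a * r ^ b) 1 hp (by omega) (by rw [h, one_mul])
        (Or.inl rfl) hpm hC
    · exact Pool.Agent.H916U.main p m (ℓ ^ a * r ^ b) 2 hp (by omega) (by rw [h])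
        (Or.inr ⟨rfl, hodd.not_two_dvd_nat⟩) hpm hC
  obtain ⟨N, hN, hpN, H⟩ := key
  refine ⟨N, hN, hpN, generated_mono (fun t ht => ?_) (H s hs hne)⟩
  rcases ht with ht | ⟨q, hq, hqm, ht⟩
  · exact Or.inl ht
  · exact Or.inr ⟨q, hq, hqm.trans (Dvd.intro_left N rfl), ht⟩

theorem reached_squares {p m : ℕ} (hp : p.Prime) (hm : 0 < m) (hpm : p.Coprime m)
    (hdeg : Squares p m) {s : Multiset (ZMod m)} (hs : H916T.IsTate p m s) (hne : s ≠ 0) :
    Reached p m s := by
  obtain ⟨hp2, hQR, hord, h4⟩ := hdeg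
  have hv : ∀ q : ℕ, TH540.vv p q = twoPart p q := fun q =>
    Nat.factorization_def _ Nat.prime_two
  obtain ⟨N, hN, hpN, H⟩ := TH540.main hp hm hpm
    ⟨fun q hq hq2 hqm => hp2 q hq (hq.odd_of_ne_two hq2) hqm,
      fun q r hq hr hq2 hr2 hqm hrm hqr =>
        hQR q r hq hr (hq.odd_of_ne_two hq2) (hr.odd_of_ne_two hr2) hqm hrm hqr,
      fun q r hq hr hq2 hr2 hqm hrm hqr hlt =>
        hord q r hq hr (hq.odd_of_ne_two hq2) (hr.odd_of_ne_two hr2) hqm hrm hqr
          (by rwa [hv, hv] at hlt),
      fun h q hq hq2 hqm => h4 h q hq (hq.odd_of_ne_two hq2) hqm⟩ hs hne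
  exact ⟨N, hN, hpN, H (N * m) rfl⟩

theorem reached {p m : ℕ} (hp : p.Prime) (hm : 0 < m) (hpm : p.Coprime m) (hdeg : GoodDegree p m)
    {s : Multiset (ZMod m)} (hs : H916T.IsTate p m s) (hne : s ≠ 0) : Reached p m s := by
  rcases hdeg with h | h | h
  · exact reached_few hp hm hpm h hs hne
  · exact reached_two hp hpm h hs hne
  · exact reached_squares hp hm hpm h hs hne

variable {Ω V : Type} [Field Ω] [CharZero Ω] {T : Homology Ω V} {X : V}

/-- The Tate conjecture and the semisimplicity for products of Fermat varieties. -/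
theorem hasTate_of_lines (hT : IsHomology T) {p m : ℕ} (hp : p.Prime) (hm : 0 < m)
    (hpm : p.Coprime m) (hdeg : GoodDegree p m) (hX : HasLines T X p m) : HasTate T X := by
  have main : ∀ b : ℤ, (∀ e : T.E X (2 * b) b, T.frob X _ _ e = e →
      e ∈ Submodule.span Ω (Set.range (T.reg X (2 * b) b))) ∧
      ∀ e : T.E X (2 * b) b, T.frob X _ _ (T.frob X _ _ e - e) = T.frob X _ _ e - e →
        T.frob X _ _ e = e := by
    intro b
    obtain ⟨I, hI, e, lam, s, hlam, hline⟩ := hX b
    obtain ⟨φ, hφ⟩ := hT.lin X (2 * b) b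
    have halg : ∀ i, lam i = 1 → e i ∈ Submodule.span Ω (Set.range (T.reg X (2 * b) b)) := by
      intro i hi
      obtain ⟨htate, hzero, hgen⟩ := hline i hi
      by_cases hs : s i = 0
      · exact hzero hs
      · obtain ⟨N, hN, hpN, h⟩ := reached hp hm hpm hdeg htate hs
        exact hgen N hN hpN h
    have hrepr : ∀ x : T.E X (2 * b) b, ∀ i, e.repr (φ x) i = lam i * e.repr x i := by
      intro x i
      conv_lhs => rw [← e.sum_repr x, map_sum]
      rw [map_sum, Finsupp.coe_finset_sum, Finset.sum_apply]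
      rw [Finset.sum_eq_single i]
      · rw [map_smul, ← hφ, hlam, smul_comm, map_smul, map_smul, e.repr_self]
        simp
      · intro k _ hk
        rw [map_smul, ← hφ, hlam, smul_comm, map_smul, map_smul, e.repr_self]
        simp [Finsupp.single_apply, hk]
      · intro h
        exact absurd (Finset.mem_univ i) h
    refine ⟨fun x hx => ?_, fun x hx => ?_⟩
    · rw [hφ] at hx
      rw [← e.sum_repr x]
      refine Submodule.sum_mem _ fun i _ => ?_
      by_cases hi : lam i = 1
      · exact Submodule.smul_mem _ _ (halg i hi)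
      · have h1 := hrepr x i
        rw [hx] at h1
        have h2 : (lam i - 1) * e.repr x i = 0 := by linear_combination -h1
        have h3 : e.repr x i = 0 := (mul_eq_zero.mp h2).resolve_left (sub_ne_zero.mpr hi)
        rw [h3, zero_smul]
        exact Submodule.zero_mem _
    · rw [hφ, hφ] at hx
      rw [hφ]
      apply e.repr.injective
      ext i
      have h1 : e.repr (φ (φ x - x)) i = e.repr (φ x - x) i := by rw [hx]
      rw [hrepr, map_sub, Finsupp.sub_apply, hrepr] at h1
      have h2 : (lam i - 1) ^ 2 * e.repr x i = 0 := by linear_combination h1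
      rw [hrepr]
      rcases mul_eq_zero.mp h2 with h | h
      · have h3 : lam i = 1 := by
          have := pow_eq_zero_iff (two_ne_zero) |>.mp h
          exact sub_eq_zero.mp this
        rw [h3, one_mul]
      · rw [h, mul_zero]
  exact ⟨fun b => (main b).1, fun b => (main b).2⟩

/-- The conjecture of Tate and Beilinson, in Jannsen's form, for the class of schemes generated by
products of Fermat varieties. -/
theorem tb_fermat (hT : IsHomology T) (hX : Generated T (IsFermat T) X) : TB T X :=
  tb_generated hT (fun _ ⟨_, _, _, _, _, hp, hm, hpm, hdeg, hQ, hc, hl⟩ =>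
    tb_variety hT hQ hc (hasTate_of_lines hT hp hm hpm hdeg hl)) hX

end Pool.Agent.R900.EX
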