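import Pool.Agent.R900.EX.Defs
import Pool.Agent.Results.MP_950c68_ag.DoublyTransitive

/-!
# Powers of abelian varieties with a doubly transitive Galois group: definitions

`f` is the minimal polynomial of a Weil number, an algebraic integer all of whose conjugates have
absolute value `√q`, `q = p ^ a`.
-/

set_option autoImplicit false

namespace Pool.Agent.R900.EX

open Polynomial Pool.Agent.W495.FM

open Pool.Agent.Results.MP_950c68_ag.DoublyTransitive (slope IsTransitive)

/-- Suitably normalised deviations `u = N (2 slope - 1)` of the slopes are integers with an odd sum over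
each half system (one root out of each pair `{α, q / α}`). -/
def OddDeviations (p : ℕ) [Fact p.Prime] (a : ℕ) (f : ℚ[X]) : Prop :=
  ∃ (N : ℕ) (u : PadicAlgCl p → ℤ), 0 < N ∧
    (∀ α : PadicAlgCl p, aeval α f = 0 → (N : ℝ) * (2 * slope p a α - 1) = (u α : ℝ)) ∧
    ∀ Φ : Finset (PadicAlgCl p), (∀ α ∈ Φ, aeval α f = 0) →
      (∀ α : PadicAlgCl p, aeval α f = 0 → (α ∈ Φ ↔ (p : PadicAlgCl p) ^ a / α ∉ Φ)) →
      Odd (∑ α ∈ Φ, u α)

open Classical in
/-- If `K = ℚ[X] / (f)` contains an imaginary quadratic field `ℚ(P)`, `P ^ 2 = -n`, then for each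
embedding of this field in the algebraic closure of `ℚ_p` the slopes of the roots of `f` lying over this
embedding are not all equal, and their mean is not `1 / 2`. -/
def QuadraticSlopes (p : ℕ) [Fact p.Prime] (a : ℕ) (f : ℚ[X]) : Prop :=
  ∀ (P : ℚ[X]) (n : ℕ), 0 < n → f ∣ P ^ 2 + C (n : ℚ) →
    ∀ t : PadicAlgCl p, t ^ 2 = -(n : PadicAlgCl p) →
      (∃ α β : PadicAlgCl p, aeval α f = 0 ∧ aeval β f = 0 ∧ aeval α P = t ∧ aeval β P = t ∧
        slope p a α ≠ slope p a β) ∧
      ∑ α : f.rootSet (PadicAlgCl p) with aeval α.1 P = t, (slope p a α.1 - 1 / 2) ≠ 0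

/-- `f` is irreducible of degree `2 g`, its complex roots have absolute value `√(p ^ a)`, the Galois group
is doubly transitive on the `g` numbers `x + q / x`, not all slopes are `1 / 2`, `g` is odd, or `g - 1` is
one or a prime number, or the Galois group is triply transitive, or the deviations have odd sums, and
the condition on imaginary quadratic subfields holds. -/
structure IsDTPoly (p : ℕ) [Fact p.Prime] (a g : ℕ) (f : ℚ[X]) : Prop where
  pos : 0 < a
  irreducible : Irreducible f
  degree : f.natDegree = 2 * g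
  weil : ∀ z : ℂ, aeval z f = 0 → ‖z‖ ^ 2 = (p : ℝ) ^ a
  transitive : IsTransitive 2 f (p ^ a)
  slopes : ∃ α : PadicAlgCl p, aeval α f = 0 ∧ slope p a α ≠ 1 / 2
  parity : Odd g ∨ g - 1 = 1 ∨ (g - 1).Prime ∨ IsTransitive 3 f (p ^ a) ∨ OddDeviations p a f
  quadratic : QuadraticSlopes p a f

variable {Ω V : Type} [Field Ω] [CharZero Ω]

/-- The group `H^(2 m)(X, Ω(m))` is a group of elements of degree `2 m` of the exterior algebra of
`W = H^1(X, Ω)`. The Frobenius over the field with `(p ^ a) ^ s` elements is `F ^ s`, where `F` is the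
Frobenius over the field with `p ^ a` elements. The elements of the ring generated by the elements of
degree two which are Tate classes over this smaller field are linear combinations of classes of cycles
(the theorem of Tate on divisors). -/
def IsExterior (T : Homology Ω V) (X : V) (p a s : ℕ) (d : ℤ) {W : Type} [AddCommGroup W]
    [Module Ω W] (F : W →ₗ[Ω] W) (m : ℕ) : Prop :=
  ∃ β : T.E X (2 * (d - m)) (d - m) → ExteriorAlgebra Ω W, IsLin Ω β ∧ Function.Injective β ∧
    (∀ e, β e ∈ ⋀[Ω]^(2 * m) W) ∧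
    (∀ e, ExteriorAlgebra.map (F ^ s) (β e) =
      (((p : Ω) ^ a) ^ m) ^ s • β (T.frob X (2 * (d - m)) (d - m) e)) ∧
    ∀ e, β e ∈ Algebra.adjoin Ω
      {y : ExteriorAlgebra Ω W | y ∈ ⋀[Ω]^2 W ∧ ExteriorAlgebra.map F y = (p : Ω) ^ a • y} →
      e ∈ Submodule.span Ω (Set.range (T.reg X (2 * (d - m)) (d - m)))

/-- `X` is an abelian variety of dimension `d` over the field with `(p ^ a) ^ s` elements which is isogenous
to a power of an abelian variety `A` over the field with `p ^ a` elements whose Frobenius eigenvalues on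
`W = H^1` are among the roots of `f`; the Frobenius is semisimple (Weil). -/
structure IsPowerOver (T : Homology Ω V) (X : V) (p a s : ℕ) (f : ℚ[X]) (d : ℤ) : Prop where
  cohomology : ∃ (W : Type) (_ : AddCommGroup W) (_ : Module Ω W) (F : W →ₗ[Ω] W),
    Submodule.span Ω {v : W | ∃ μ : Ω, aeval μ f = 0 ∧ F v = μ • v} = ⊤ ∧
      ∀ m : ℕ, IsExterior T X p a s d F m
  semisimple : ∀ (b : ℤ) (e : T.E X (2 * b) b),
    T.frob X _ _ (T.frob X _ _ e - e) = T.frob X _ _ e - e → T.frob X _ _ e = e

/-- `X` is isogenous to a power of an abelian variety with such a polynomial. -/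
def IsDT (T : Homology Ω V) (X : V) : Prop :=
  ∃ (p : ℕ) (_ : Fact p.Prime) (a g s : ℕ) (f : ℚ[X]) (d : ℤ) (c : Cyc T X), 0 < s ∧
    IsDTPoly p a g f ∧ IsCyc c ((p ^ a) ^ s) d ∧ IsPowerOver T X p a s f d

end Pool.Agent.R900.EX
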