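import Pool.Agent.R900.EX.TB2
import Pool.Agent.R900.EX.DTDefs

/-!
# The conjecture of Tate and Beilinson for powers of abelian varieties with a doubly transitive Galois
# group
-/

set_option autoImplicit false

namespace Pool.Agent.R900.EX

open Polynomial Pool.Agent.W495.FM

variable {Ω V : Type} [Field Ω] [IsAlgClosed Ω] [CharZero Ω] {T : Homology Ω V} {X : V}

/-- The Tate conjecture and the semisimplicity. -/
theorem hasTate_of_dt {p : ℕ} [Fact p.Prime] {a g s Q : ℕ} {f : ℚ[X]} {d : ℤ}
    {c : Cyc T X} (hs : 0 < s) (hf : IsDTPoly p a g f) (hc : IsCyc c Q d)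
    (hX : IsPowerOver T X p a s f d) : HasTate T X := by
  obtain ⟨⟨W, _, _, F, hF, hW⟩, hss⟩ := hX
  refine ⟨fun b e he => ?_, hss⟩
  rcases lt_or_ge d b with hb | hb
  · rw [hc.deg (2 * b) b (Or.inr (by omega)) e]
    exact Submodule.zero_mem _
  · obtain ⟨m, rfl⟩ : ∃ m : ℕ, b = d - m := ⟨(d - b).toNat, by omega⟩
    obtain ⟨β, -, -, hβ, hfr, halg⟩ := hW m
    refine halg e ?_
    refine Pool.Agent.Results.MP_950c68_ag.DoublyTransitive.result p a hf.pos f hf.irreducible g
      hf.degree hf.weil hf.transitive hf.slopes hf.parity ?_ Ω W F hF m s hs (β e) (hβ e) ?_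
    · exact hf.quadratic
    · rw [hfr, he]

/-- The conjecture of Tate and Beilinson, in Jannsen's form, for the class of schemes generated by powers
of abelian varieties with a doubly transitive Galois group. -/
theorem tb_dt (hT : IsHomology T) (hX : Generated T (IsDT T) X) : TB T X :=
  tb_generated hT (fun _ ⟨_, hp, _, _, _, _, _, _, hs, hf, hc, hX⟩ => by
    have := hp
    exact tb_variety hT (pow_pos (pow_pos hp.out.pos _) _) hc (hasTate_of_dt hs hf hc hX)) hX

end Pool.Agent.R900.EX
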