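import Pool.Agent.W495.FM.HomDefs

/-!
# Cycles on smooth projective varieties over finite fields: definitions

`X` is a smooth projective variety of dimension `d` over the field with `Q` elements. In the notation of
homology theories `CH_a(X) ⊗ ℚ` is the group `M X (2 a) a`, and `H^m(X, Ω(c))` is the group
`E X (2 d - m) (d - c)`.
-/

set_option autoImplicit false

namespace Pool.Agent.R900.EX

open Polynomial Pool.Agent.W495.FM

variable {Ω V : Type} [Field Ω]

/-- Data of correspondences on the smooth projective variety `X`: the ring `R` of correspondences of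
degree zero (`CH^d(X × X)` with rational coefficients, with composition), its operations `act` on the
(higher) Chow groups and `coh` on the cohomology, the correspondence `frob` given by the Frobenius
endomorphism, the intersection number `int y z` of cycles `y` and `z` of dimensions `a` and `b`, the
pairing `pair` of cohomology classes, and the correspondences `prod y z = y × z`. -/
structure Cyc (T : Homology Ω V) (X : V) where
  R : Type
  [ring : Ring R]
  frob : R
  act : ∀ n j, R → T.M X n j → T.M X n j
  coh : ∀ n j, R → T.E X n j → T.E X n j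
  int : ∀ a b, T.M X (2 * a) a → T.M X (2 * b) b → ℚ
  pair : ∀ a b, T.E X (2 * a) a → T.E X (2 * b) b → Ω
  prod : ∀ a b, T.M X (2 * a) a → T.M X (2 * b) b → R

attribute [instance] Cyc.ring

/-- Correspondences operate on the Chow groups and on the cohomology, compatibly with the regulators. -/
structure HasActions {T : Homology Ω V} {X : V} (c : Cyc T X) : Prop where
  rep : ∀ n j, IsRep ℚ (c.act n j)
  repE : ∀ n j, IsRep Ω (c.coh n j)
  reg : ∀ n j r x, T.reg X n j (c.act n j r x) = c.coh n j r (T.reg X n j x)

/-- The Frobenius endomorphism acts on `CH^m(X, i)` as multiplication by `Q ^ m` (Soulé). -/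
structure HasFrobenius {T : Homology Ω V} {X : V} (c : Cyc T X) (Q : ℕ) (d : ℤ) : Prop where
  frobM : ∀ n j x, c.act n j c.frob x = (Q : ℚ) ^ (d - j) • x
  frobE : ∀ n j e, c.coh n j c.frob e = (Q : Ω) ^ (d - j) • T.frob X n j e

/-- The cohomology lives in the degrees `0, …, 2 d`. The characteristic polynomial of Frobenius on
`H^(2 d - n)(X)` has integral coefficients, and all its roots have absolute value
`Q ^ ((2 d - n) / 2)` (Deligne). -/
structure HasWeil {T : Homology Ω V} {X : V} (c : Cyc T X) (Q : ℕ) (d : ℤ) : Prop where
  deg : ∀ n j, n < 0 ∨ 2 * d < n → ∀ e : T.E X n j, e = 0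
  weil : ∀ n, ∃ P : ℤ[X], (∀ j e, c.coh n j (aeval c.frob P) e = 0) ∧
    ∀ j, n ≠ 2 * j → aeval ((Q : ℚ) ^ (d - j)) P ≠ 0

/-- Poincaré duality. -/
structure HasDuality {T : Homology Ω V} {X : V} (c : Cyc T X) (d : ℤ) : Prop where
  bilin : ∀ a b, IsBilin Ω (c.pair a b)
  perfect : ∀ a b, a + b = d → ∀ f, (∀ g, c.pair a b f g = 0) → f = 0
  symm : ∀ a b, a + b = d → ∀ f g, c.pair a b f g = c.pair b a g f
  frob_pair : ∀ a b, a + b = d → ∀ f g, c.pair a b (T.frob X _ _ f) (T.frob X _ _ g) =
    c.pair a b f g

/-- Intersection numbers are given by the classes of the cycles. -/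
structure HasIntersection {T : Homology Ω V} {X : V} (c : Cyc T X) (d : ℤ) : Prop where
  bilin_int : ∀ a b, IsBilin ℚ (c.int a b)
  int_reg : ∀ a b, a + b = d → ∀ y z, (c.int a b y z : Ω) = c.pair a b (T.reg X _ _ y) (T.reg X _ _ z)

/-- `y × z` maps `x` to the multiple of `z` by the intersection number of `y` and `x`. -/
structure HasProducts {T : Homology Ω V} {X : V} (c : Cyc T X) (d : ℤ) : Prop where
  prod_chow : ∀ a b, a + b = d → ∀ y z x, c.act (2 * b) b (c.prod a b y z) x = c.int a b y x • z

/-- The same for the classes. -/
structure HasProductClasses {T : Homology Ω V} {X : V} (c : Cyc T X) (d : ℤ) : Prop where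
  prod_coh : ∀ a b, a + b = d → ∀ y z e, c.coh (2 * b) b (c.prod a b y z) e =
    c.pair a b (T.reg X _ _ y) e • T.reg X _ _ z

/-- `y × z` operates on `CH_j(X, n - 2 j)` through the groups `CH_i(point, n - 2 j)`, which vanish for
`n ≠ 2 j` (Quillen). -/
structure HasPoints {T : Homology Ω V} {X : V} (c : Cyc T X) (d : ℤ) : Prop where
  prod_ne : ∀ a b, a + b = d → ∀ n j, n ≠ 2 * b → ∀ y z e, c.coh n j (c.prod a b y z) e = 0
  point : ∀ a b, a + b = d → ∀ n j, n ≠ 2 * j → ∀ y z x, c.act n j (c.prod a b y z) x = 0

/-- The properties of correspondences on a smooth projective variety `X` of dimension `d` over the field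
with `Q` elements. -/
structure IsCyc {T : Homology Ω V} {X : V} (c : Cyc T X) (Q : ℕ) (d : ℤ) : Prop extends
    HasActions c, HasFrobenius c Q d, HasWeil c Q d, HasDuality c d, HasIntersection c d,
    HasProducts c d, HasProductClasses c d, HasPoints c d where
  /-- homologically trivial correspondences are nilpotent (Kimura; for instance if the motive of `X` is
  a direct summand of the motive of an abelian variety) -/
  nilpotent : ∀ r, (∀ n, ∃ j, ∀ e, c.coh n j r e = 0) → IsNilpotent r

/-- All Tate classes on `X` over the ground field are linear combinations of classes of cycles, and the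
eigenvalue one of Frobenius is semisimple. -/
structure HasTate (T : Homology Ω V) (X : V) : Prop where
  tate : ∀ (b : ℤ) (e : T.E X (2 * b) b), T.frob X _ _ e = e →
    e ∈ Submodule.span Ω (Set.range (T.reg X (2 * b) b))
  semisimple : ∀ (b : ℤ) (e : T.E X (2 * b) b),
    T.frob X _ _ (T.frob X _ _ e - e) = T.frob X _ _ e - e → T.frob X _ _ e = e

end Pool.Agent.R900.EX
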