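import Pool.Agent.R900.EX.Fermat
import Pool.Agent.W495.FM.DimMain

/-!
# Open varieties and images of varieties generated by products of Fermat varieties
-/

set_option autoImplicit false

namespace Pool.Agent.R900.EX

open Pool.Agent.W495.FM

variable {Ω V : Type} [Field Ω] [IsAlgClosed Ω] [CharZero Ω] {T : Homology Ω V} {X : V}

theorem isoAbove_fermat (hT : IsHomology T) (hW : HasWeights T) :
    IsoAbove T (IsFermat T) := fun _ _ _ _ h hX hZ i hi =>
  iso_opened hT hW h (onto_of_dim hT hZ hi) ((tb_fermat hT hX).iso hT i)

theorem onto_spread_fermat (hT : IsHomology T) (hW : HasWeights T)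
    (hX : Spread T (fun X => Generated T (IsFermat T) X ∨ ∀ i, IsOnto T X i) X) (i : ℤ) :
    IsOnto T X i := by
  refine onto_spread hT hW (fun X h i => ?_) hX i
  rcases h with h | h
  · exact ((tb_fermat hT h).iso hT i).1
  · exact h i

end Pool.Agent.R900.EX
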