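import Pool.Agent.R900.EX.Defs
import Pool.Agent.W495.FM.Hom

/-!
# The conjecture of Tate and Beilinson from the conjecture of Tate, semisimplicity and nilpotence
-/

set_option autoImplicit false
set_option linter.unusedSectionVars false

namespace Pool.Agent.R900.EX

open Polynomial Pool.Agent.W495.FM Module

theorem rep_aeval {K A B : Type} [Field K] [Ring A] [AddCommGroup B] [Module K B]
    (φ : A →+* Module.End K B) (c : A) (N : K) (x : B) (hc : φ c x = N • x) (P : ℤ[X]) :
    φ (aeval c P) x = (aeval N P : K) • x := by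
  have hp : ∀ m : ℕ, φ (c ^ m) x = N ^ m • x := by
    intro m
    induction m with
    | zero => rw [pow_zero, pow_zero, map_one, one_smul]; rfl
    | succ m ih => rw [pow_succ, map_mul, Module.End.mul_apply, hc, map_smul, ih, smul_smul,
        ← pow_succ']
  induction P using Polynomial.induction_on' with
  | add P S hP hS => rw [map_add, map_add, LinearMap.add_apply, hP, hS, map_add, add_smul]
  | monomial m a =>
    rw [aeval_monomial, aeval_monomial, map_mul, Module.End.mul_apply, hp]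
    have h1 : φ (algebraMap ℤ A a) = (a : Module.End K B) := by
      rw [eq_intCast, map_intCast]
    rw [h1, Module.End.intCast_apply, ← Int.cast_smul_eq_zsmul K, smul_smul, eq_intCast]

variable {Ω V : Type} [Field Ω] [CharZero Ω] {T : Homology Ω V} {X : V}

/-- Bundled Frobenius. -/
noncomputable def frL (hT : IsHomology T) (X : V) (n j : ℤ) : T.E X n j →ₗ[Ω] T.E X n j :=
  (hT.lin X n j).map

theorem frL_apply (hT : IsHomology T) (n j : ℤ) (e : T.E X n j) :
    frL hT X n j e = T.frob X n j e := IsLin.map_apply _ e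

/-- The invariant elements. -/
noncomputable def inv (hT : IsHomology T) (X : V) (n j : ℤ) : Submodule Ω (T.E X n j) :=
  LinearMap.eqLocus (frL hT X n j) LinearMap.id

theorem mem_inv (hT : IsHomology T) {n j : ℤ} {e : T.E X n j} :
    e ∈ inv hT X n j ↔ T.frob X n j e = e := by
  rw [inv, LinearMap.mem_eqLocus, frL_apply, LinearMap.id_apply]

theorem reg_mem (hT : IsHomology T) {n j : ℤ} (x : T.M X n j) : T.reg X n j x ∈ inv hT X n j :=
  (mem_inv hT).2 (hT.frob_reg X n j x)

section cyc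

variable {c : Cyc T X} {Q : ℕ} {d : ℤ}

noncomputable def aR (hc : IsCyc c Q d) (n j : ℤ) : c.R →+* Module.End ℚ (T.M X n j) :=
  (hc.rep n j).choose

theorem aR_apply (hc : IsCyc c Q d) (n j : ℤ) (r : c.R) (x : T.M X n j) :
    aR hc n j r x = c.act n j r x := ((hc.rep n j).choose_spec r x).symm

noncomputable def eR (hc : IsCyc c Q d) (n j : ℤ) : c.R →+* Module.End Ω (T.E X n j) :=
  (hc.repE n j).choose

theorem eR_apply (hc : IsCyc c Q d) (n j : ℤ) (r : c.R) (e : T.E X n j) :
    eR hc n j r e = c.coh n j r e := ((hc.repE n j).choose_spec r e).symm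

/-- The eigenvalue. -/
noncomputable def kap (Q : ℕ) (d j : ℤ) (P : ℤ[X]) : ℚ := aeval ((Q : ℚ) ^ (d - j)) P

theorem kap_cast (Q : ℕ) (d j : ℤ) (P : ℤ[X]) :
    (aeval ((Q : Ω) ^ (d - j)) P : Ω) = (kap Q d j P : Ω) := by
  have h1 : ((Q : Ω) ^ (d - j)) = (((Q : ℚ) ^ (d - j) : ℚ) : Ω) := by push_cast; rfl
  have h2 := Polynomial.hom_eval₂ P (Int.castRingHom ℚ) (Rat.castHom Ω) ((Q : ℚ) ^ (d - j))
  rw [kap, h1]
  change eval₂ (algebraMap ℤ Ω) _ P = Rat.castHom Ω (eval₂ (algebraMap ℤ ℚ) _ P)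
  have h3 : (algebraMap ℤ ℚ) = Int.castRingHom ℚ := RingHom.ext_int _ _
  rw [h3, h2]
  congr 1
  exact RingHom.ext_int _ _

theorem act_aeval (hc : IsCyc c Q d) (n j : ℤ) (P : ℤ[X]) (x : T.M X n j) :
    aR hc n j (aeval c.frob P) x = kap Q d j P • x :=
  rep_aeval _ _ _ _ (by rw [aR_apply, hc.frobM]) P

theorem coh_aeval (hc : IsCyc c Q d) (n j : ℤ) (P : ℤ[X]) (e : T.E X n j)
    (he : T.frob X n j e = e) : eR hc n j (aeval c.frob P) e = (kap Q d j P : Ω) • e := by
  rw [← kap_cast]
  exact rep_aeval _ _ _ _ (by rw [eR_apply, hc.frobE, he]) P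

theorem frob_eR (hT : IsHomology T) (hc : IsCyc c Q d) (n j : ℤ) :
    eR hc n j c.frob = (Q : Ω) ^ (d - j) • frL hT X n j := by
  ext e
  rw [eR_apply, hc.frobE, LinearMap.smul_apply, frL_apply]

/-- If `(φ - 1) ^ 2 = 0` implies `φ = 1` then `(φ - 1) ^ k = 0` implies `φ = 1`. -/
theorem ker_pow {B : Type} [AddCommGroup B] [Module Ω B] (G : Module.End Ω B)
    (h : ∀ e, G (G e) = 0 → G e = 0) (k : ℕ) (e : B) (he : (G ^ k) e = 0) : G e = 0 := by
  induction k generalizing e with
  | zero =>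
    rw [pow_zero, Module.End.one_apply] at he
    rw [he, map_zero]
  | succ k ih =>
    rw [pow_succ, Module.End.mul_apply] at he
    exact h e (ih _ he)

theorem exists_R (hT : IsHomology T) (hQ : 0 < Q) (hc : IsCyc c Q d) (hX : HasTate T X) (b : ℤ) :
    ∃ R : ℤ[X], kap Q d b R ≠ 0 ∧ (∀ n, n ≠ 2 * b → ∀ j, eR hc n j (aeval c.frob R) = 0) ∧
      ∀ e, eR hc (2 * b) b (aeval c.frob R) e ∈ inv hT X (2 * b) b := by
  classical
  choose P hP hP' using hc.weil
  have hQ0 : (Q : ℚ) ≠ 0 := by exact_mod_cast hQ.ne'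
  have hQΩ : (Q : Ω) ≠ 0 := by exact_mod_cast hQ.ne'
  set R0 : ℤ[X] := ∏ n ∈ (Finset.Icc 0 (2 * d)).erase (2 * b), P n with hR0
  have h0 : kap Q d b R0 ≠ 0 := by
    rw [kap, hR0, map_prod]
    exact Finset.prod_ne_zero_iff.2 fun n hn => hP' n b (Finset.ne_of_mem_erase hn)
  have h1 : ∀ n, n ≠ 2 * b → ∀ j (S : ℤ[X]), eR hc n j (aeval c.frob (R0 * S)) = 0 := by
    intro n hn j S
    ext e
    rw [LinearMap.zero_apply]
    by_cases hm : n ∈ Finset.Icc 0 (2 * d)
    · have h2 : R0 * S = (S * ∏ m ∈ ((Finset.Icc 0 (2 * d)).erase (2 * b)).erase n, P m) * P n := by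
        rw [hR0, ← Finset.mul_prod_erase _ _ (Finset.mem_erase.2 ⟨hn, hm⟩)]
        ring
      rw [h2, map_mul, map_mul, Module.End.mul_apply, eR_apply hc n j (aeval c.frob (P n)), hP,
        map_zero]
    · refine hc.deg n j ?_ _
      rw [Finset.mem_Icc] at hm
      omega
  rcases lt_or_ge d b with hb | hb
  · refine ⟨R0, h0, fun n hn j => ?_, fun e => ?_⟩
    · have := h1 n hn j 1
      rwa [mul_one] at this
    · rw [hc.deg (2 * b) b (Or.inr (by omega)) (eR hc (2 * b) b (aeval c.frob R0) e)]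
      exact Submodule.zero_mem _
  · obtain ⟨m, hm⟩ : ∃ m : ℕ, d - b = m := ⟨(d - b).toNat, by omega⟩
    have hne : P (2 * b) ≠ 0 := by
      intro h
      have := hP' (2 * b) (b + 1) (by omega)
      rw [h, map_zero] at this
      exact this rfl
    obtain ⟨S, hS, hS'⟩ := exists_eq_pow_rootMultiplicity_mul_and_not_dvd (P (2 * b)) hne
      (((Q ^ m : ℕ) : ℤ))
    set k := rootMultiplicity (((Q ^ m : ℕ) : ℤ)) (P (2 * b)) with hk
    have hqm : (Q : ℚ) ^ (d - b) = (((Q ^ m : ℕ) : ℤ) : ℚ) := by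
      rw [hm]; push_cast; rw [zpow_natCast]
    have hSe : kap Q d b S ≠ 0 := by
      intro h
      apply hS'
      rw [dvd_iff_isRoot, IsRoot]
      rw [kap, hqm] at h
      have h3 : (aeval (((Q ^ m : ℕ) : ℤ) : ℚ) S : ℚ) = ((S.eval ((Q ^ m : ℕ) : ℤ) : ℤ) : ℚ) := by
        have := aeval_algebraMap_apply_eq_algebraMap_eval (A := ℚ) ((Q ^ m : ℕ) : ℤ) S
        simpa using this
      rw [h3] at h
      exact_mod_cast h
    refine ⟨R0 * S, ?_, fun n hn j => h1 n hn j S, fun e => ?_⟩
    · have : kap Q d b (R0 * S) = kap Q d b R0 * kap Q d b S := by simp [kap]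
      rw [this]
      exact mul_ne_zero h0 hSe
    · -- the element `S(F) e` is invariant
      have hinv : T.frob X _ _ (eR hc (2 * b) b (aeval c.frob S) e) =
          eR hc (2 * b) b (aeval c.frob S) e := by
        set e' := eR hc (2 * b) b (aeval c.frob S) e with he'
        have h4 : eR hc (2 * b) b (aeval c.frob (P (2 * b))) e = 0 := by
          rw [eR_apply, hP]
        rw [hS, map_mul, map_mul, Module.End.mul_apply, ← he', map_pow, map_pow] at h4
        have h5 : eR hc (2 * b) b (aeval c.frob (Polynomial.X - C ((Q ^ m : ℕ) : ℤ) : ℤ[X])) =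
            (Q : Ω) ^ (d - b) • (frL hT X (2 * b) b - 1) := by
          rw [map_sub, aeval_X, aeval_C, map_sub, frob_eR hT hc, eq_intCast, map_intCast,
            smul_sub]
          congr 1
          ext e
          rw [Module.End.intCast_apply, ← Int.cast_smul_eq_zsmul Ω, LinearMap.smul_apply,
            Module.End.one_apply, hm, zpow_natCast]
          push_cast
          rfl
        rw [h5, _root_.smul_pow, LinearMap.smul_apply] at h4
        have h6 : ((frL hT X (2 * b) b - 1) ^ k) e' = 0 :=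
          (smul_eq_zero.1 h4).resolve_left (pow_ne_zero _ (zpow_ne_zero _ hQΩ))
        have h7 := ker_pow (frL hT X (2 * b) b - 1) (fun e he => by
          rw [LinearMap.sub_apply, Module.End.one_apply, frL_apply] at he ⊢
          rw [LinearMap.sub_apply, Module.End.one_apply, frL_apply, sub_eq_zero] at he
          rw [sub_eq_zero]
          exact hX.semisimple b e he) k e' h6
        rw [LinearMap.sub_apply, Module.End.one_apply, frL_apply, sub_eq_zero] at h7
        exact h7
      rw [map_mul, map_mul, Module.End.mul_apply, coh_aeval hc _ _ _ _ hinv]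
      exact Submodule.smul_mem _ _ ((mem_inv hT).2 hinv)

end cyc

end Pool.Agent.R900.EX
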