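import Pool.Agent.R900.EX.TB

/-!
# The conjecture of Tate and Beilinson from the conjecture of Tate, semisimplicity and nilpotence
-/

set_option autoImplicit false
set_option linter.unusedSectionVars false

namespace Pool.Agent.R900.EX

open Polynomial Pool.Agent.W495.FM Module

variable {Ω V : Type} [Field Ω] [CharZero Ω] {T : Homology Ω V} {X : V} {c : Cyc T X} {Q : ℕ} {d : ℤ}

noncomputable def prL (hc : IsCyc c Q d) (a b : ℤ) :
    T.E X (2 * a) a →ₗ[Ω] T.E X (2 * b) b →ₗ[Ω] Ω := (hc.bilin a b).choose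

theorem prL_apply (hc : IsCyc c Q d) (a b : ℤ) (f : T.E X (2 * a) a) (g : T.E X (2 * b) b) :
    prL hc a b f g = c.pair a b f g := ((hc.bilin a b).choose_spec f g).symm

noncomputable def itL (hc : IsCyc c Q d) (a b : ℤ) :
    T.M X (2 * a) a →ₗ[ℚ] T.M X (2 * b) b →ₗ[ℚ] ℚ := (hc.bilin_int a b).choose

theorem itL_apply (hc : IsCyc c Q d) (a b : ℤ) (f : T.M X (2 * a) a) (g : T.M X (2 * b) b) :
    itL hc a b f g = c.int a b f g := ((hc.bilin_int a b).choose_spec f g).symm

/-- Bundled regulator. -/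
noncomputable def rgL (hT : IsHomology T) (X : V) (n j : ℤ) : T.M X n j →+ T.E X n j :=
  (hT.add X n j).map

theorem rgL_apply (hT : IsHomology T) (n j : ℤ) (x : T.M X n j) :
    rgL hT X n j x = T.reg X n j x := rfl

theorem rgL_mem (hT : IsHomology T) {n j : ℤ} (x : T.M X n j) : rgL hT X n j x ∈ inv hT X n j :=
  reg_mem hT x

theorem rgL_smul (hT : IsHomology T) (n j : ℤ) (q : ℚ) (x : T.M X n j) :
    rgL hT X n j (q • x) = (q : Ω) • rgL hT X n j x := by
  have := map_ratCast_smul (rgL hT X n j) ℚ Ω q x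
  rwa [Rat.cast_id] at this

theorem int_reg (hT : IsHomology T) (hc : IsCyc c Q d) {a b : ℤ} (h : a + b = d)
    (y : T.M X (2 * a) a) (z : T.M X (2 * b) b) :
    ((itL hc a b y z : ℚ) : Ω) = prL hc a b (rgL hT X _ _ y) (rgL hT X _ _ z) := by
  rw [itL_apply, prL_apply]
  exact hc.int_reg a b h y z

/-- The pairing with an invariant class. -/
theorem pair_aeval (hT : IsHomology T) (hc : IsCyc c Q d) {a b : ℤ} (h : a + b = d)
    (g : T.E X (2 * a) a) (hg : g ∈ inv hT X (2 * a) a) (f : T.E X (2 * b) b) (R : ℤ[X]) :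
    prL hc a b g (eR hc (2 * b) b (aeval c.frob R) f) = (kap Q d b R : Ω) * prL hc a b g f := by
  have h1 : ∀ f, prL hc a b g (eR hc (2 * b) b c.frob f) =
      (Q : Ω) ^ (d - b) * prL hc a b g f := by
    intro f
    rw [eR_apply, hc.frobE, map_smul, smul_eq_mul]
    congr 1
    rw [prL_apply, prL_apply]
    have h2 := hc.frob_pair a b h g f
    rwa [(mem_inv hT).1 hg] at h2
  rw [← kap_cast]
  have hp : ∀ (m : ℕ) (f), prL hc a b g (eR hc (2 * b) b (c.frob ^ m) f) =
      ((Q : Ω) ^ (d - b)) ^ m * prL hc a b g f := by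
    intro m
    induction m with
    | zero => intro f; rw [pow_zero, pow_zero, map_one, one_mul]; rfl
    | succ m ih =>
      intro f
      rw [pow_succ, map_mul, Module.End.mul_apply, ih, h1, pow_succ, mul_assoc]
  induction R using Polynomial.induction_on' with
  | add P S hP hS =>
    rw [map_add, map_add, LinearMap.add_apply, map_add, hP, hS, map_add, add_mul]
  | monomial m x =>
    rw [aeval_monomial, aeval_monomial, map_mul, Module.End.mul_apply]
    have h3 : eR hc (2 * b) b (algebraMap ℤ c.R x) =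
        (x : Module.End Ω (T.E X (2 * b) b)) := by
      rw [eq_intCast, map_intCast]
    rw [h3, Module.End.intCast_apply, ← Int.cast_smul_eq_zsmul Ω, map_smul, hp, smul_eq_mul,
      eq_intCast, mul_assoc]

/-- Dual bases of cycles of complementary codimension. -/
structure IsDual (hT : IsHomology T) (hc : IsCyc c Q d) {a b : ℤ} {r : ℕ}
    (y : Fin r → T.M X (2 * a) a) (z : Fin r → T.M X (2 * b) b) : Prop where
  dual : ∀ i k, itL hc a b (y i) (z k) = if i = k then 1 else 0
  indep : LinearIndependent Ω fun i => rgL hT X _ _ (z i)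
  span : Submodule.span Ω (Set.range fun i => rgL hT X _ _ (z i)) = inv hT X (2 * b) b

theorem exists_dual (hT : IsHomology T) (hQ : 0 < Q) (hc : IsCyc c Q d) (hX : HasTate T X)
    {a b : ℤ} (h : a + b = d) :
    ∃ (r : ℕ) (y : Fin r → T.M X (2 * a) a) (z : Fin r → T.M X (2 * b) b), IsDual hT hc y z := by
  classical
  have h' : b + a = d := by rwa [add_comm]
  have hfin := hT.finite X (2 * b) b
  obtain ⟨κ, w, hw, hspan, hli⟩ := exists_linearIndependent' Ω fun x : T.M X (2 * b) b =>
    rgL hT X _ _ x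
  have : Finite κ := hli.finite
  obtain ⟨r, ⟨eq⟩⟩ := Finite.exists_equiv_fin κ
  let z : Fin r → T.M X (2 * b) b := fun k => w (eq.symm k)
  have hli' : LinearIndependent Ω fun k => rgL hT X _ _ (z k) := hli.comp _ eq.symm.injective
  have hrange : (Set.range fun k => rgL hT X _ _ (z k)) =
      Set.range ((fun x => rgL hT X _ _ x) ∘ w) := by
    ext f
    constructor
    · rintro ⟨k, rfl⟩
      exact ⟨eq.symm k, rfl⟩
    · rintro ⟨k, rfl⟩
      exact ⟨eq k, by simp [z]⟩
  have hspan' : Submodule.span Ω (Set.range fun k => rgL hT X _ _ (z k)) = inv hT X (2 * b) b := by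
    rw [hrange, hspan]
    apply le_antisymm
    · rw [Submodule.span_le]
      rintro _ ⟨x, rfl⟩
      exact reg_mem hT x
    · intro f hf
      exact hX.tate b f ((mem_inv hT).1 hf)
  let φ : T.M X (2 * a) a →ₗ[ℚ] (Fin r → ℚ) := LinearMap.pi fun k => (itL hc a b).flip (z k)
  have hφ : LinearMap.range φ = ⊤ := by
    by_contra hne
    obtain ⟨u, hu, hle⟩ := Submodule.exists_le_ker_of_lt_top _ (lt_top_iff_ne_top.2 hne)
    let s : Fin r → ℚ := fun k => u (Pi.single k 1)
    have hu' : ∀ v : Fin r → ℚ, u v = ∑ k, v k * s k := by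
      intro v
      conv_lhs => rw [pi_eq_sum_univ v]
      rw [map_sum]
      refine Finset.sum_congr rfl fun k _ => ?_
      rw [map_smul, smul_eq_mul]
      congr 2
      ext k'
      simp only [Pi.single_apply, eq_comm]
    let Fc : T.E X (2 * b) b := ∑ k, (s k : Ω) • rgL hT X _ _ (z k)
    have hFT : Fc ∈ inv hT X (2 * b) b :=
      Submodule.sum_mem _ fun k _ => Submodule.smul_mem _ _ (reg_mem hT (z k))
    have h1 : ∀ y : T.M X (2 * a) a, prL hc a b (rgL hT X _ _ y) Fc = 0 := by
      intro y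
      have h2 : φ y ∈ LinearMap.ker u := hle ⟨y, rfl⟩
      rw [LinearMap.mem_ker, hu'] at h2
      have h3 : ∑ k, itL hc a b y (z k) * s k = 0 := h2
      have h4 : ((∑ k, itL hc a b y (z k) * s k : ℚ) : Ω) = 0 := by rw [h3, Rat.cast_zero]
      rw [Rat.cast_sum] at h4
      rw [← h4, map_sum]
      refine Finset.sum_congr rfl fun k _ => ?_
      rw [map_smul, smul_eq_mul, Rat.cast_mul, int_reg hT hc h, mul_comm]
    have h5 : ∀ g ∈ inv hT X (2 * a) a, prL hc a b g Fc = 0 := by
      intro g hg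
      have h6 := hX.tate a g ((mem_inv hT).1 hg)
      have h7 : Submodule.span Ω (Set.range (T.reg X (2 * a) a)) ≤
          LinearMap.ker ((prL hc a b).flip Fc) := by
        rw [Submodule.span_le]
        rintro _ ⟨y, rfl⟩
        exact h1 y
      exact h7 h6
    have h7 : Fc = 0 := by
      refine hc.perfect b a h' Fc fun g => ?_
      obtain ⟨R, hR, -, hRT⟩ := exists_R hT hQ hc hX a
      have h8 := pair_aeval hT hc h' Fc hFT g R
      have h9 : prL hc b a Fc (eR hc (2 * a) a (aeval c.frob R) g) =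
          prL hc a b (eR hc (2 * a) a (aeval c.frob R) g) Fc := by
        rw [prL_apply, prL_apply]
        exact hc.symm b a h' _ _
      rw [h9, h5 _ (hRT g), prL_apply] at h8
      exact (mul_eq_zero.1 h8.symm).resolve_left (by exact_mod_cast hR)
    have h9 : ∀ k, (s k : Ω) = 0 := Fintype.linearIndependent_iff.1 hli' (fun k => (s k : Ω)) h7
    apply hu
    ext v
    rw [LinearMap.comp_apply, LinearMap.zero_comp, LinearMap.zero_apply, hu']
    refine Finset.sum_eq_zero fun k _ => ?_
    have h11 : s k = 0 := by exact_mod_cast h9 k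
    rw [h11, mul_zero]
  have hy : ∀ i : Fin r, ∃ y : T.M X (2 * a) a, φ y = Pi.single i 1 := by
    intro i
    have : (Pi.single i 1 : Fin r → ℚ) ∈ LinearMap.range φ := by rw [hφ]; trivial
    exact this
  choose y hy using hy
  refine ⟨r, y, z, ?_, hli', hspan'⟩
  intro i k
  have h12 := congrFun (hy i) k
  have h13 : itL hc a b (y i) (z k) = (Pi.single i (1 : ℚ) : Fin r → ℚ) k := h12
  rw [h13, Pi.single_apply]
  simp only [eq_comm]

theorem IsDual.expand {hT : IsHomology T} {hc : IsCyc c Q d} {a b : ℤ} (h : a + b = d) {r : ℕ}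
    {y : Fin r → T.M X (2 * a) a} {z : Fin r → T.M X (2 * b) b} (hd : IsDual hT hc y z)
    (f : T.E X (2 * b) b) (hf : f ∈ inv hT X (2 * b) b) :
    ∑ i, prL hc a b (rgL hT X _ _ (y i)) f • rgL hT X _ _ (z i) = f := by
  classical
  rw [← hd.span, Submodule.mem_span_range_iff_exists_fun] at hf
  obtain ⟨s, hs⟩ := hf
  have h1 : ∀ i, prL hc a b (rgL hT X _ _ (y i)) f = s i := by
    intro i
    rw [← hs, map_sum, Finset.sum_eq_single i]
    · rw [map_smul, ← int_reg hT hc h, hd.dual, if_pos rfl, Rat.cast_one, smul_eq_mul, mul_one]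
    · intro k _ hk
      rw [map_smul, ← int_reg hT hc h, hd.dual, if_neg hk.symm, Rat.cast_zero, smul_zero]
    · intro hi
      exact absurd (Finset.mem_univ i) hi
  rw [Finset.sum_congr rfl fun i _ => by rw [h1 i], hs]

theorem IsDual.nilpotent {hT : IsHomology T} {hc : IsCyc c Q d} {a b : ℤ}
    (h : a + b = d) {r : ℕ} {y : Fin r → T.M X (2 * a) a} {z : Fin r → T.M X (2 * b) b}
    (hd : IsDual hT hc y z) {R : ℤ[X]}
    (hR0 : ∀ n, n ≠ 2 * b → ∀ j, eR hc n j (aeval c.frob R) = 0)
    (hRT : ∀ e, eR hc (2 * b) b (aeval c.frob R) e ∈ inv hT X (2 * b) b) :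
    IsNilpotent (aeval c.frob R - ∑ i, c.prod a b (y i) (kap Q d b R • z i)) := by
  apply hc.nilpotent
  intro n
  refine ⟨b, fun e => ?_⟩
  rw [← eR_apply hc, map_sub, map_sum, LinearMap.sub_apply, LinearMap.sum_apply]
  by_cases hn : n = 2 * b
  · subst hn
    rw [sub_eq_zero, ← hd.expand h _ (hRT e)]
    refine Finset.sum_congr rfl fun i _ => ?_
    rw [eR_apply hc _ _ (c.prod a b (y i) _), hc.prod_coh a b h,
      pair_aeval hT hc h _ (rgL_mem hT (y i)), ← prL_apply hc, ← rgL_apply hT, ← rgL_apply hT,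
      rgL_smul, smul_smul]
    congr 1
    exact mul_comm _ _
  · rw [hR0 n hn, LinearMap.zero_apply, Finset.sum_eq_zero, sub_zero]
    intro i _
    rw [eR_apply, hc.prod_ne a b h n b hn]

/-- For each `j` a polynomial in the Frobenius correspondence is, up to products of cycles, nilpotent,
and does not vanish at `Q ^ (d - j)`. -/
theorem exists_nilpotent (hT : IsHomology T) (hQ : 0 < Q) (hc : IsCyc c Q d) (hX : HasTate T X)
    (b : ℤ) : ∃ (R : ℤ[X]) (r : ℕ) (y : Fin r → T.M X (2 * (d - b)) (d - b))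
      (z : Fin r → T.M X (2 * b) b), kap Q d b R ≠ 0 ∧ IsDual hT hc y z ∧
      IsNilpotent (aeval c.frob R - ∑ i, c.prod (d - b) b (y i) (kap Q d b R • z i)) := by
  obtain ⟨R, hR, hR0, hRT⟩ := exists_R hT hQ hc hX b
  obtain ⟨r, y, z, hd⟩ := exists_dual hT hQ hc hX (show d - b + b = d by ring)
  exact ⟨R, r, y, z, hR, hd, hd.nilpotent (by ring) hR0 hRT⟩

/-- A module over the correspondences, an element of which is multiplied by a nonzero number by a
nilpotent correspondence. -/
theorem eq_zero_of_nil {A B : Type} [Ring A] [AddCommGroup B] [Module ℚ B]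
    (φ : A →+* Module.End ℚ B) {s : A} (hs : IsNilpotent s) {k : ℚ} (hk : k ≠ 0) (x : B)
    (hx : φ s x = k • x) : x = 0 := by
  obtain ⟨N, hN⟩ := hs
  have h2 : ∀ m : ℕ, (φ (s ^ m)) x = k ^ m • x := by
    intro m
    induction m with
    | zero => rw [pow_zero, pow_zero, map_one, one_smul]; rfl
    | succ m ih =>
      rw [pow_succ, map_mul, Module.End.mul_apply, hx, map_smul, ih, smul_smul, ← pow_succ']
  have h3 := h2 N
  rw [hN, map_zero, LinearMap.zero_apply] at h3
  exact (smul_eq_zero.1 h3.symm).resolve_left (pow_ne_zero _ hk)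

/-- Homologically trivial cycles are zero. -/
theorem hom_trivial (hT : IsHomology T) (hQ : 0 < Q) (hc : IsCyc c Q d) (hX : HasTate T X) (b : ℤ)
    (x : T.M X (2 * b) b) (hx : rgL hT X _ _ x = 0) : x = 0 := by
  obtain ⟨R, r, y, z, hR, hd, hn⟩ := exists_nilpotent hT hQ hc hX b
  refine eq_zero_of_nil (aR hc (2 * b) b) hn hR x ?_
  rw [map_sub, map_sum, LinearMap.sub_apply, LinearMap.sum_apply, act_aeval, Finset.sum_eq_zero,
    sub_zero]
  intro i _
  have h1 : itL hc (d - b) b (y i) x = 0 := by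
    have := int_reg hT hc (show d - b + b = d by ring) (y i) x
    rw [hx, map_zero] at this
    exact_mod_cast this
  rw [aR_apply, hc.prod_chow _ _ (by ring), ← itL_apply hc, h1, zero_smul]

/-- The higher groups vanish. -/
theorem higher_trivial (hT : IsHomology T) (hQ : 0 < Q) (hc : IsCyc c Q d) (hX : HasTate T X)
    {n b : ℤ} (hn : n ≠ 2 * b) (x : T.M X n b) : x = 0 := by
  obtain ⟨R, r, y, z, hR, hd, hnil⟩ := exists_nilpotent hT hQ hc hX b
  refine eq_zero_of_nil (aR hc n b) hnil hR x ?_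
  rw [map_sub, map_sum, LinearMap.sub_apply, LinearMap.sum_apply, act_aeval, Finset.sum_eq_zero,
    sub_zero]
  intro i _
  rw [aR_apply, hc.point _ _ (by ring) _ _ hn]

/-- The coordinates of a cycle. -/
theorem IsDual.expand_cycle {hT : IsHomology T} (hQ : 0 < Q) {hc : IsCyc c Q d}
    (hX : HasTate T X) {a b : ℤ} (h : a + b = d) {r : ℕ} {y : Fin r → T.M X (2 * a) a}
    {z : Fin r → T.M X (2 * b) b} (hd : IsDual hT hc y z) (x : T.M X (2 * b) b) :
    ∑ i, itL hc a b (y i) x • z i = x := by
  have h1 : rgL hT X _ _ (x - ∑ i, itL hc a b (y i) x • z i) = 0 := by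
    rw [map_sub, map_sum, sub_eq_zero]
    conv_lhs => rw [← hd.expand h _ (rgL_mem hT x)]
    refine Finset.sum_congr rfl fun i _ => ?_
    rw [rgL_smul, int_reg hT hc h]
  have h2 := hom_trivial hT hQ hc hX _ _ h1
  rw [sub_eq_zero] at h2
  exact h2.symm

/-- The regulator is injective on `CH_b(X) ⊗ Ω`. -/
theorem indep (hT : IsHomology T) (hQ : 0 < Q) (hc : IsCyc c Q d) (hX : HasTate T X) (b : ℤ)
    (s : ℕ) (x : Fin s → T.M X (2 * b) b) (hx : LinearIndependent ℚ x) :
    LinearIndependent Ω fun k => T.reg X (2 * b) b (x k) := by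
  classical
  obtain ⟨r, y, z, hd⟩ := exists_dual hT hQ hc hX (show d - b + b = d by ring)
  -- the coordinates
  let A : Fin s → (Fin r → ℚ) := fun k i => itL hc (d - b) b (y i) (x k)
  have hA : LinearIndependent ℚ A := by
    let g : (Fin r → ℚ) →ₗ[ℚ] T.M X (2 * b) b :=
      { toFun := fun v => ∑ i, v i • z i
        map_add' := fun u v => by
          rw [← Finset.sum_add_distrib]
          exact Finset.sum_congr rfl fun i _ => by rw [Pi.add_apply, add_smul]
        map_smul' := fun q v => by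
          rw [Finset.smul_sum]
          exact Finset.sum_congr rfl fun i _ => by
            rw [Pi.smul_apply, smul_eq_mul, mul_smul]; rfl }
    refine LinearIndependent.of_comp g ?_
    have h1 : (g ∘ A) = x := funext fun k => hd.expand_cycle hQ hX (by ring) (x k)
    rw [h1]
    exact hx
  have hAΩ : LinearIndependent Ω fun k => fun i => ((A k i : ℚ) : Ω) :=
    (linearIndependent_algebraMap_comp_iff (R := ℚ) (S := Ω)).2 hA
  rw [Fintype.linearIndependent_iff] at hAΩ ⊢
  intro t ht
  refine hAΩ t ?_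
  have h2 : ∀ k, T.reg X (2 * b) b (x k) = ∑ i, ((A k i : ℚ) : Ω) • rgL hT X _ _ (z i) := by
    intro k
    rw [← rgL_apply hT]
    conv_lhs => rw [← hd.expand_cycle hQ hX (by ring) (x k)]
    rw [map_sum]
    exact Finset.sum_congr rfl fun i _ => rgL_smul hT _ _ _ _
  have h3 : ∑ i, (∑ k, t k * ((A k i : ℚ) : Ω)) • rgL hT X _ _ (z i) = 0 := by
    rw [← ht]
    simp only [h2, Finset.smul_sum, Finset.sum_smul, smul_smul]
    exact Finset.sum_comm
  have h4 := Fintype.linearIndependent_iff.1 hd.indep _ h3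
  ext i
  simpa using h4 i

/-- By the Weil conjectures there are no invariant elements in the groups `H_n(X, ℚ_ℓ(j))` for
`n ≠ 2 j`. -/
theorem inv_zero (hc : IsCyc c Q d) {n j : ℤ} (hn : n ≠ 2 * j) (e : T.E X n j)
    (he : T.frob X n j e = e) : e = 0 := by
  obtain ⟨P, hP, hP'⟩ := hc.weil n
  have h1 := coh_aeval hc n j P e he
  rw [eR_apply, hP] at h1
  have h2 : kap Q d j P ≠ 0 := hP' j hn
  exact (smul_eq_zero.1 h1.symm).resolve_left (by exact_mod_cast h2)

/-- **The conjecture of Tate and Beilinson** for a smooth projective variety, from the conjecture of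
Tate, the semisimplicity of the eigenvalue one of Frobenius, and nilpotence. -/
theorem tb_variety (hT : IsHomology T) (hQ : 0 < Q) (hc : IsCyc c Q d) (hX : HasTate T X) :
    TB T X := by
  intro n j
  by_cases hn : n = 2 * j
  · subst hn
    refine ⟨fun e => ⟨hX.tate j e, fun he => ?_⟩, indep hT hQ hc hX j, hX.semisimple j⟩
    have h1 : Submodule.span Ω (Set.range (T.reg X (2 * j) j)) ≤ inv hT X (2 * j) j := by
      rw [Submodule.span_le]
      rintro _ ⟨x, rfl⟩
      exact reg_mem hT x
    exact (mem_inv hT).1 (h1 he)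
  · have h0 := higher_trivial hT hQ hc hX hn
    have hr0 : T.reg X n j 0 = 0 := (rgL hT X n j).map_zero
    have hf0 : T.frob X n j 0 = 0 := by
      rw [← frL_apply hT, map_zero]
    refine ⟨fun e => ⟨fun he => ?_, fun he => ?_⟩, fun r x hx => ?_, fun e he => ?_⟩
    · rw [inv_zero hc hn e he]
      exact Submodule.zero_mem _
    · have h1 : Submodule.span Ω (Set.range (T.reg X n j)) ≤ ⊥ := by
        rw [Submodule.span_le]
        rintro _ ⟨x, rfl⟩
        rw [h0 x, hr0]
        exact Submodule.zero_mem _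
      rw [(Submodule.mem_bot Ω).1 (h1 he), hf0]
    · have hr : IsEmpty (Fin r) := ⟨fun k => hx.ne_zero k (h0 _)⟩
      exact linearIndependent_empty_type
    · have h1 := inv_zero hc hn _ he
      rwa [sub_eq_zero] at h1

end Pool.Agent.R900.EX
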